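import Pool.Agent.H82.NTC.Pot

/-!
Board `ntc`, row PMJ3: potential of the women for the men of kind `J3`.
-/

set_option autoImplicit false
set_option linter.unusedSimpArgs false

namespace Pool.NTC

open Pool.NET

theorem pmj3_col (S c a : ℤ) (hS : 0 < S) : S * c + S ≤ S * a ∨ c = a ∨ S * a + S ≤ S * c := by
  rcases lt_trichotomy c a with h | h | h
  · left
    have h2 : S * (c + 1) ≤ S * a := mul_le_mul_of_nonneg_left h hS.le
    have h3 : S * (c + 1) = S * c + S := by ring
    omega
  · exact Or.inr (Or.inl h)
  · right; right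
    have h2 : S * (a + 1) ≤ S * c := mul_le_mul_of_nonneg_left h hS.le
    have h3 : S * (a + 1) = S * a + S := by ring
    omega

theorem pmj3_thm : PMk Ke.J3 := by
  rintro ⟨q, W, M, S⟩ e g e' g' h u ⟨q0, gq, gW, We, eM, MS⟩ ⟨q0', gq', gW', We', eM', MS'⟩ hR
    ⟨a, b⟩ ⟨⟨c, r⟩, k⟩ s t s0 s1 t0 t1 H
  simp only at q0 gq gW We eM MS gq' gW' We' eM' s1 t1
  have hS : 0 < S := by omega
  have hP : prM ⟨q, W, M, S⟩ e g h u ((a, b), Ke.J3) =
      4 * (S * a) - 2 * M + 6 * q - 2 * e + 1 := by
    by_cases hu : u (a, b - 1)
    · simp only [prM, nx2, fx, hu, if_true]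
      ring
    · simp only [prM, nx2, fx, hu, if_false]
      ring
  rw [hP] at H
  have h1 := abs_lt.1 H
  have h2 : |4 * (S * a) - 2 * M + 6 * q - 2 * e + 1 -
      4 * (fx ⟨q, W, M, S⟩ e g ((a, b), Ke.J3) + t)| = 2 * M - 2 * e - 14 * q + 1 - 4 * t := by
    simp only [fx]
    rw [abs_of_nonneg (by omega)]
    ring
  rw [h2] at h1
  obtain ⟨h3, h4⟩ := h1
  cases k
  case NW => left; simp only [lvM]; omega
  case SE => left; simp only [lvM]; omega
  case T => left; simp only [lvM]; omega
  case B => left; simp only [lvM]; omega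
  case R =>
    exfalso
    simp only [fx] at h3 h4
    rcases pmj3_col S c a hS with h | h | h
    · omega
    · subst h; omega
    · omega
  case L =>
    exfalso
    simp only [fx] at h3 h4
    rcases pmj3_col S c a hS with h | h | h
    · omega
    · subst h; omega
    · omega
  case J1 =>
    exfalso
    simp only [fx] at h3 h4
    rcases pmj3_col S c a hS with h | h | h
    · omega
    · subst h; omega
    · omega
  case J2 =>
    exfalso
    simp only [fx] at h3 h4
    rcases pmj3_col S c a hS with h | h | h
    · omega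
    · subst h; omega
    · omega
  case J4 =>
    exfalso
    simp only [fx] at h3 h4
    rcases pmj3_col S c a hS with h | h | h
    · omega
    · subst h; omega
    · omega
  case J3 =>
    right
    simp only [fx] at h3 h4
    simp only [lvM, sgM]
    refine ⟨trivial, ?_⟩
    rcases pmj3_col S c a hS with h | h | h
    · omega
    · subst h; omega
    · omega

end Pool.NTC
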